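import Pool.Agent.Lib.MP_a57f33_nt.PN.T.Main

/-!
# Pentagon project (MP_a57f33_nt): the pentagon equation for `dm₀`, given the slot lemma

`pentagon_of_B` : the abstract form (the slot level system `KK` has only the zero solution);
`pentagon_of_KE` : the slot lemma `S_KE` implies the pentagon equation.
-/

namespace Pent

open Pool.Agent.MP_a57f33_nt

universe v

noncomputable section

/-- an element of `T3` in all steps of the filtration is zero -/
theorem K_fil_zero (f : T3) (hf : ∀ d, Fil d f) : f = 0 := by
  have h : (FreeAlgebra.basisFreeMonoid ℚ (Fin 3)).repr f = 0 := by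
    ext w
    have := hf (nbc w.toList + 1) w.toList (by omega)
    unfold coeff at this
    rw [FreeMonoid.ofList_toList] at this
    rw [this]
    rfl
  exact (LinearEquiv.map_eq_zero_iff _).mp h

/-- **The slot level statement implies the pentagon equation for all elements of `dm₀`.** -/
theorem pentagon_of_B (hB : ∀ n0, S_Bb n0) : S_main.{v} := by
  intro ψ hψ A _ _ t ht
  have hφ : Good (sgn ψ) := sgn_good hψ
  have hR0 : Rw (sgn ψ) wR = 0 := by
    apply K_fil_zero
    intro d l hl
    exact T_fil_of_Bb d (hB d) ψ hψ _ (by simp) l (by omega)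
  have h5 := p_univ.{v} (sgn ψ) hφ wR wR_inj A (fun p q => t (eS p) (eS q)) (braid_eS ht)
  simp only [eS_wR] at h5
  rw [h5, hR0, map_zero]

/-- **The slot lemma implies the pentagon equation for all elements of `dm₀`.** -/
theorem pentagon_of_KE (hKE : S_KE) : S_main.{v} :=
  pentagon_of_B fun n0 => p_KEB n0 (S_KEb_of hKE n0)

end

end Pent
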