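import Pool.Agent.Lib.MP_a57f33_nt.PN.K.Defs
import Pool.Agent.Lib.MP_a57f33_nt.PN.P.B

/-!
# Pentagon project (MP_a57f33_nt): the slot lemma implies the piece `B`
-/

namespace Pent

/-- generic slots of a given shape, the momenta are the variables from `X i` on -/
noncomputable def K_gen : ℕ → List (ℕ × ℕ) →
    List (List (MvPolynomial ℕ ℚ) × List (MvPolynomial ℕ ℚ))
  | _, [] => []
  | i, ab :: sh =>
      ((List.range ab.1).map (fun j => MvPolynomial.X (i + j)),
        (List.range ab.2).map (fun j => MvPolynomial.X (i + ab.1 + j)))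
        :: K_gen (i + ab.1 + ab.2) sh

theorem K_gen_evs : ∀ (gs : List Sl) (i : ℕ) (s : ℕ → ℚ),
    (∀ j, j < (flat gs).length → s (i + j) = (flat gs).getD j 0) →
      B_evs s (K_gen i (shp gs)) = gs := by
  intro gs
  induction gs with
  | nil => intro i s _; rfl
  | cons g gs ih =>
    intro i s hs
    have hfl : flat (g :: gs) = g.1 ++ (g.2 ++ flat gs) := by
      simp [flat, List.append_assoc]
    rw [hfl] at hs
    simp only [List.length_append] at hs
    have h1 : (List.range g.1.length).map (fun j => s (i + j)) = g.1 := by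
      apply List.ext_getElem
      · simp
      · intro j h1 h2
        rw [List.getElem_map, List.getElem_range, hs j (by omega), List.getD_eq_getElem?_getD,
          List.getElem?_append_left h2, List.getElem?_eq_getElem h2]
        rfl
    have h2 : (List.range g.2.length).map (fun j => s (i + g.1.length + j)) = g.2 := by
      apply List.ext_getElem
      · simp
      · intro j h1 h2
        rw [List.getElem_map, List.getElem_range, add_assoc, hs (g.1.length + j) (by omega),
          List.getD_eq_getElem?_getD, List.getElem?_append_right (by omega),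
          Nat.add_sub_cancel_left, List.getElem?_append_left h2, List.getElem?_eq_getElem h2]
        rfl
    have h3 : B_evs s (K_gen (i + g.1.length + g.2.length) (shp gs)) = gs := by
      apply ih
      intro j hj
      rw [show i + g.1.length + g.2.length + j = i + (g.1.length + (g.2.length + j)) by ring,
        hs _ (by omega), List.getD_eq_getElem?_getD, List.getElem?_append_right (by omega),
        Nat.add_sub_cancel_left, List.getElem?_append_right (by omega), Nat.add_sub_cancel_left,
        List.getD_eq_getElem?_getD]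
    have e : K_gen i (shp (g :: gs)) =
        ((List.range g.1.length).map (fun j => MvPolynomial.X (i + j)),
          (List.range g.2.length).map (fun j => MvPolynomial.X (i + g.1.length + j)))
          :: K_gen (i + g.1.length + g.2.length) (shp gs) := rfl
    rw [e]
    show (_, _) :: B_evs s _ = _
    rw [h3, List.map_map, List.map_map]
    have e1 : (MvPolynomial.eval s ∘ fun j => (MvPolynomial.X (i + j) : MvPolynomial ℕ ℚ))
        = fun j => s (i + j) := by
      funext j; simp
    have e2 : (MvPolynomial.eval s ∘ fun j =>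
        (MvPolynomial.X (i + g.1.length + j) : MvPolynomial ℕ ℚ))
        = fun j => s (i + g.1.length + j) := by
      funext j; simp
    rw [e1, e2, h1, h2]

theorem K_PolyE (E : ℚ → List Sl → ℚ) (hE : B_pol (fun _ r gs => E r gs)) : PolyE E := by
  intro sh
  obtain ⟨P, hP⟩ := hE (MvPolynomial.X 0) (K_gen 1 sh)
  refine ⟨P, ?_⟩
  intro ρ gs hgs
  rw [← hP, ← hgs, K_gen_evs gs 1 (fun i => (ρ :: flat gs).getD i 0) (by
    intro j _
    rw [Nat.add_comm 1 j]
    simp [List.getD_eq_getElem?_getD]), MvPolynomial.eval_X]
  rfl

/-- The slot lemma implies the piece `B`. -/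
theorem p_KEB (n0 : ℕ) (hKE : S_KEb n0) : S_Bb n0 := by
  intro p m D D' hp hm0 hK gs hgs hok hm
  obtain ⟨N, rfl⟩ : ∃ N, m = N + 1 := by
    refine ⟨m - 1, ?_⟩
    have : 1 ≤ nl gs := by
      cases gs with
      | nil => simp at hgs; omega
      | cons g gs =>
        have := B_one_le (hok g (by simp)).1
        simp only [nl, List.map_cons, List.sum_cons]
        omega
    omega
  have hcon : KEconst (B_E D) p N := by
    apply hKE p N (B_E D) hp (by omega) (K_PolyE _ (B_pol_E D hK.polD))
    intro gs h1 h2 h3
    obtain ⟨x1, x2⟩ := B_X p (N + 1) D D' hK (by omega) gs h1 h2 h3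
    rw [← x1, ← x2]
    exact B_Y p (N + 1) D D' hK (by omega) gs h1 h2 h3
  have hE : ∀ (ρ : ℚ) (hs : List Sl), hs.length = p → uvok hs → nl hs = N →
      B_E D ρ hs = 0 := by
    intro ρ hs h1 h2 h3
    rw [hcon ρ 0 hs (hs.map fun g => (g.1.map (fun _ => 0), g.2.map (fun _ => 0))) h1 h2 h3
      (by simp [shp, Function.comp_def])]
    unfold B_E
    apply B_EF_zero D hK.zeroD
    intro x hx
    simp only [flat, List.mem_flatMap, List.mem_map, List.mem_append] at hx
    obtain ⟨g, ⟨a, _, rfl⟩, hx⟩ := hx
    simp only [List.mem_map] at hx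
    rcases hx with ⟨_, _, rfl⟩ | ⟨_, _, rfl⟩ <;> rfl
  obtain ⟨x1, x2⟩ := B_X p (N + 1) D D' hK (by omega) gs hgs hok hm
  constructor
  · rw [x1]
    apply B_osum_zero
    intro q hq
    obtain ⟨b1, b2, b3⟩ := B_mods_good dv B_good_dv gs hok q hq
    exact hE _ _ (by omega) b1 (by omega)
  · rw [x2]
    apply B_osum_zero
    intro q hq
    obtain ⟨b1, b2, b3⟩ := B_mods_good du B_good_du gs hok q hq
    exact hE _ _ (by omega) b1 (by omega)

end Pent
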