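import Pool.Agent.Lib.MP_a57f33_nt.PN.DefsF

/-!
# Pentagon project (MP_a57f33_nt): the slot system in one unknown function

Definitions: `PolyE`, `KEeq`, `KEconst`, the statement `S_KE` and its bounded form `S_KEb`,
and the abstract bounded statement `S_Bb` about the slot level system `KK`.
-/

namespace Pent

/-- the shape of a list of slots -/
def shp (gs : List Sl) : List (ℕ × ℕ) := gs.map fun g => (g.1.length, g.2.length)

/-- polynomial for each shape, in the label and in the momenta -/
def PolyE (E : ℚ → List Sl → ℚ) : Prop :=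
  ∀ sh : List (ℕ × ℕ), ∃ F : MvPolynomial ℕ ℚ, ∀ (ρ : ℚ) (gs : List Sl), shp gs = sh →
    E ρ gs = MvPolynomial.eval (fun i => (ρ :: flat gs).getD i 0) F

/-- the system for one unknown function `E` of a label and of `p` slots with `N` letters -/
def KEeq (E : ℚ → List Sl → ℚ) (p N : ℕ) : Prop :=
  ∀ gs : List Sl, gs.length = p → uvok gs → nl gs = N + 1 →
    osum dv E gs + osum du (fun _ t => E (-(flat gs).sum) t) gs
      = osum gam (fun _ t => E (-(vsum gs)) t) gs

/-- `E` depends only on the shape -/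
def KEconst (E : ℚ → List Sl → ℚ) (p N : ℕ) : Prop :=
  ∀ (ρ ρ' : ℚ) (gs gs' : List Sl), gs.length = p → uvok gs → nl gs = N → shp gs = shp gs' →
    E ρ gs = E ρ' gs'

/-- **The slot lemma**: for at least two slots, polynomial solutions depend only on the shape. -/
def S_KE : Prop :=
  ∀ (p N : ℕ) (E : ℚ → List Sl → ℚ), 2 ≤ p → PolyE E → KEeq E p N → KEconst E p N

/-- the slot lemma for at most `n0` letters -/
def S_KEb (n0 : ℕ) : Prop :=
  ∀ (p N : ℕ) (E : ℚ → List Sl → ℚ), 2 ≤ p → N ≤ n0 → PolyE E → KEeq E p N → KEconst E p N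

/-- the slot level system `KK` has only the zero solution, for at most `n0 + 1` letters -/
def S_Bb (n0 : ℕ) : Prop :=
  ∀ (p m : ℕ) (D D' : List Sl → ℚ), 2 ≤ p → m ≤ n0 + 1 → KK p m D D' →
    ∀ gs : List Sl, gs.length = p → uvok gs → nl gs = m → D gs = 0 ∧ D' gs = 0

theorem S_KEb_of (h : S_KE) (n0 : ℕ) : S_KEb n0 := fun p N E hp _ => h p N E hp

end Pent
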